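import Pool.Agent.Helper58.VF.APP

/-!
# Infinitely many generators in a coset of a finitely generated subgroup (MP_266b34_co)

The setting for a finitely generated subgroup `A` of an arbitrary group `Γ`, when infinitely many
elements of `S` lie in one coset `A b`.
-/

set_option autoImplicit false

namespace Pool.Agent.Helper69.AP3

open Pool.Agent.Helper27.VF Pool.Agent.Helper58.VF Filter

universe u

/-- the part of the Cayley graph -/
def WW {Γ : Type u} [Group Γ] (A : Subgroup Γ) (B : Set Γ) : Set Γ := {x | ∃ a ∈ A, ∃ y ∈ B, x = a * y}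

theorem mul_mem_WW {Γ : Type u} [Group Γ] {A : Subgroup Γ} {B : Set Γ} (a : Γ) (ha : a ∈ A) {x : Γ}
    (hx : x ∈ WW A B) : a * x ∈ WW A B := by
  obtain ⟨a', ha', y, hy, rfl⟩ := hx
  exact ⟨a * a', A.mul_mem ha ha', y, hy, by rw [mul_assoc]⟩

/-- left multiplication -/
@[reducible] def act {Γ : Type u} [Group Γ] (A : Subgroup Γ) (B : Set Γ) : MulAction A (WW A B) where
  smul a x := ⟨(a : Γ) * (x : Γ), mul_mem_WW (a : Γ) a.2 x.2⟩
  one_smul x := Subtype.ext (one_mul (x : Γ))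
  mul_smul a b x := Subtype.ext (mul_assoc (a : Γ) b x)

theorem cay_walk_mul {Γ : Type u} [Group Γ] {S : Set Γ} (g : Γ) {a b : Γ} (q : (cay S).Walk a b) :
    ∃ q' : (cay S).Walk (g * a) (g * b), ∀ x ∈ q'.support, ∃ y ∈ q.support, x = g * y := by
  induction q with
  | @nil u => exact ⟨SimpleGraph.Walk.nil, fun x hx => ⟨u, by simp, by simpa using hx⟩⟩
  | @cons u v w h q ih =>
    obtain ⟨q', hq'⟩ := ih
    refine ⟨SimpleGraph.Walk.cons (cay_mul g h) q', ?_⟩
    intro x hx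
    rw [SimpleGraph.Walk.support_cons, List.mem_cons] at hx
    rcases hx with rfl | hx
    · exact ⟨u, by simp, rfl⟩
    · obtain ⟨y, hy, rfl⟩ := hq' x hx
      exact ⟨y, by simp [hy], rfl⟩

theorem reach_of_walk {V : Type u} {G : SimpleGraph V} {W : Set V} {a b : V} (q : G.Walk a b) :
    ∀ (h : ∀ x ∈ q.support, x ∈ W) (ha : a ∈ W) (hb : b ∈ W),
      (G.induce W).Reachable ⟨a, ha⟩ ⟨b, hb⟩ := by
  induction q with
  | nil => intro _ ha hb; exact SimpleGraph.Reachable.refl _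
  | @cons u v w hadj q ih =>
    intro h ha hb
    have hv : v ∈ W := h v (by simp)
    refine SimpleGraph.Reachable.trans (v := ⟨v, hv⟩) ?_ (ih (fun x hx => h x (by simp [hx])) hv hb)
    refine SimpleGraph.Adj.reachable ?_
    exact hadj

/-- The setting. -/
theorem settingC {Γ : Type u} [Group Γ] (A : Subgroup Γ) (hA : A.FG)
    (S : Set Γ) (hS : Subgroup.closure S = ⊤) (h1 : (1 : Γ) ∉ S) (b : Γ)
    (hinf : {s | s ∈ S ∧ s * b⁻¹ ∈ A}.Infinite) :
    ∃ (W : Set Γ) (_ : MulAction A W) (w : W) (G₀ : SimpleGraph W) (p : Ultrafilter W),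
      Stg A ((cay S).induce W) G₀ w p ∧ ∀ a : A, ((a • w : W) : Γ) = a := by
  classical
  obtain ⟨D, hD⟩ := hA
  choose F hF1 hF2 using fun g : Γ => exists_finset S g (by rw [hS]; exact Subgroup.mem_top _)
  set T : Finset Γ := insert b (insert 1 D) with hT
  set E : Set Γ := ⋃ g ∈ T, (F g : Set Γ) with hE
  have hEf : E.Finite := Set.Finite.biUnion T.finite_toSet fun g _ => (F g).finite_toSet
  have hES : E ⊆ S := Set.iUnion₂_subset fun g _ => hF1 g
  have hEc : ∀ g ∈ T, g ∈ Subgroup.closure E := fun g hg => Subgroup.closure_mono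
      (Set.subset_biUnion_of_mem (u := fun g => (F g : Set Γ)) hg) (hF2 g)
  have hq : ∀ g : Γ, ∃ B : Set Γ, B.Finite ∧ (g ∈ T → ∃ q : (cay E).Walk 1 g,
      (∀ x ∈ q.support, x ∈ B) ∧ ∀ x ∈ B, x ∈ q.support) := by
    intro g
    by_cases hg : g ∈ T
    · obtain ⟨q⟩ := cay_reach (S := E) g (hEc g hg) 1
      rw [one_mul] at q
      exact ⟨{x | x ∈ q.support}, q.support.finite_toSet, fun _ => ⟨q, fun x hx => hx, fun x hx => hx⟩⟩
    · exact ⟨∅, Set.finite_empty, fun h => absurd h hg⟩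
  choose Bf hBf hBq using hq
  set B : Set Γ := ⋃ g ∈ T, Bf g with hB
  have hBfin : B.Finite := Set.Finite.biUnion T.finite_toSet fun g _ => hBf g
  have hBmem : ∀ g ∈ T, ∀ x ∈ Bf g, x ∈ B := fun g hg x hx => Set.mem_biUnion (t := Bf) hg hx
  have hbB : b ∈ B := by
    obtain ⟨q, hq1, -⟩ := hBq b (by simp [hT])
    exact hBmem b (by simp [hT]) b (hq1 b q.end_mem_support)
  have h1B : (1 : Γ) ∈ B := by
    obtain ⟨q, hq1, -⟩ := hBq b (by simp [hT])
    exact hBmem b (by simp [hT]) 1 (hq1 1 q.start_mem_support)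
  set W : Set Γ := WW A B with hW
  have hBW : ∀ y ∈ B, ∀ a ∈ A, a * y ∈ W := fun y hy a ha => ⟨a, ha, y, hy, rfl⟩
  have h1W : (1 : Γ) ∈ W := ⟨1, A.one_mem, 1, h1B, (one_mul 1).symm⟩
  have hAW : ∀ a ∈ A, a ∈ W := fun a ha => ⟨a, ha, 1, h1B, (mul_one a).symm⟩
  let inst : MulAction A W := act A B
  have hsm : ∀ (a : A) (x : W), ((a • x : W) : Γ) = a * x := fun a x => rfl
  -- connectedness
  have hre : ∀ g ∈ T, ∀ y ∈ Bf g, ∀ a (ha : a ∈ A) (hy : a * y ∈ W),
      ((cay E).induce W).Reachable ⟨a, hAW a ha⟩ ⟨a * y, hy⟩ := by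
    intro g hg y hy a ha hyW
    obtain ⟨q, hq1, hq2⟩ := hBq g hg
    have hys := hq2 y hy
    obtain ⟨q', hq'⟩ := cay_walk_mul a (q.takeUntil y hys)
    have hgen : ∀ (c : Γ) (hc : c = a) (q'' : (cay E).Walk c (a * y)),
        (∀ x ∈ q''.support, ∃ z ∈ (q.takeUntil y hys).support, x = a * z) → ∀ (hcW : c ∈ W),
        ((cay E).induce W).Reachable ⟨c, hcW⟩ ⟨a * y, hyW⟩ := by
      intro c hc q'' hq'' hcW
      refine reach_of_walk q'' ?_ _ _
      intro x hx
      obtain ⟨z, hz, rfl⟩ := hq'' x hx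
      have hz2 : z ∈ q.support := q.support_takeUntil_subset_support hys hz
      exact hBW z (hBmem g hg z (hq1 z hz2)) a ha
    have h2 := hgen (a * 1) (mul_one a) q' hq' (by rw [mul_one]; exact hAW a ha)
    have h3 : (⟨a * 1, by rw [mul_one]; exact hAW a ha⟩ : W) = ⟨a, hAW a ha⟩ :=
      Subtype.ext (mul_one a)
    rwa [h3] at h2
  have hreD : ∀ d ∈ D, ∀ a (ha : a ∈ A) (had : a * d ∈ W),
      ((cay E).induce W).Reachable ⟨a, hAW a ha⟩ ⟨a * d, had⟩ := by
    intro d hd a ha had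
    have hdT : d ∈ T := by simp [hT, hd]
    obtain ⟨q, hq1, -⟩ := hBq d hdT
    exact hre d hdT d (hq1 d q.end_mem_support) a ha had
  have hDA : ∀ g ∈ Subgroup.closure (D : Set Γ), ∀ a (ha : a ∈ A) (hag : a * g ∈ W),
      ((cay E).induce W).Reachable ⟨a, hAW a ha⟩ ⟨a * g, hag⟩ := by
    intro g hg
    induction hg using Subgroup.closure_induction with
    | mem x hx => exact hreD x hx
    | one =>
      intro a ha hag
      have h3 : (⟨a * 1, hag⟩ : W) = ⟨a, hAW a ha⟩ := Subtype.ext (mul_one a)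
      rw [h3]
    | mul x y hx hy ihx ihy =>
      intro a ha hag
      have hxA : x ∈ A := by rw [← hD]; exact hx
      have hax : a * x ∈ A := A.mul_mem ha hxA
      have e1 : a * (x * y) = a * x * y := (mul_assoc _ _ _).symm
      have h2 := ihy (a * x) hax (by rw [← e1]; exact hag)
      have h3 : (⟨a * x * y, by rw [← e1]; exact hag⟩ : W) = ⟨a * (x * y), hag⟩ := Subtype.ext e1.symm
      rw [h3] at h2
      exact (ihx a ha (hAW _ hax)).trans h2
    | inv x hx ih =>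
      intro a ha hag
      have hxA : x ∈ A := by rw [← hD]; exact hx
      have hax : a * x⁻¹ ∈ A := A.mul_mem ha (A.inv_mem hxA)
      have e1 : a * x⁻¹ * x = a := inv_mul_cancel_right a x
      have h2 := ih (a * x⁻¹) hax (by rw [e1]; exact hAW a ha)
      have h3 : (⟨a * x⁻¹ * x, by rw [e1]; exact hAW a ha⟩ : W) = ⟨a, hAW a ha⟩ := Subtype.ext e1
      rw [h3] at h2
      exact h2.symm
  have hroot : ∀ x : W, ((cay E).induce W).Reachable ⟨1, h1W⟩ x := by
    rintro ⟨x, hx⟩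
    obtain ⟨a, ha, y, hy, rfl⟩ := id hx
    obtain ⟨g, hg, hyg⟩ := Set.mem_iUnion₂.1 hy
    have h2 := hDA a (by rw [hD]; exact ha) 1 A.one_mem (by rw [one_mul]; exact hAW a ha)
    have h3 : (⟨1 * a, by rw [one_mul]; exact hAW a ha⟩ : W) = ⟨a, hAW a ha⟩ :=
      Subtype.ext (one_mul a)
    rw [h3] at h2
    exact h2.trans (hre g hg y hyg a ha hx)
  -- the ultrafilter
  set N : Set W := {x | (x : Γ) ∈ S ∧ (x : Γ) * b⁻¹ ∈ A} with hN
  have hNinf : N.Infinite := by
    have h2 : {s | s ∈ S ∧ s * b⁻¹ ∈ A} ⊆ Subtype.val '' N := by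
      rintro s ⟨hs1, hs2⟩
      refine ⟨⟨s, s * b⁻¹, hs2, b, hbB, by group⟩, ⟨hs1, hs2⟩, rfl⟩
    intro hfin
    exact hinf ((hfin.image _).subset h2)
  have hne : (cofinite ⊓ 𝓟 N : Filter W).NeBot := hNinf.cofinite_inf_principal_neBot
  obtain ⟨p, hp⟩ : ∃ p : Ultrafilter W, (p : Filter W) ≤ cofinite ⊓ 𝓟 N :=
    ⟨Ultrafilter.of _, Ultrafilter.of_le _⟩
  have hpc : (p : Filter W) ≤ cofinite := hp.trans inf_le_left
  have hpN : N ∈ p := (hp.trans inf_le_right) (mem_principal_self N)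
  refine ⟨W, act A B, ⟨1, h1W⟩, (cay E).induce W, p, ?_, fun a => ?_⟩
  · refine { free := ?_, fin := ?_, le := ?_, inv := ?_, inv₀ := ?_, conn := ?_,
             lf := ?_, nonp := ?_, nb := ?_ }
    · intro a x hax
      have h2 : (a : Γ) * x = x := congrArg Subtype.val hax
      exact Subtype.ext (mul_eq_right.1 h2)
    · refine ⟨{x : W | (x : Γ) ∈ B}, hBfin.preimage Subtype.val_injective.injOn, ?_⟩
      rintro ⟨x, hx⟩
      obtain ⟨a, ha, y, hy, rfl⟩ := id hx
      refine ⟨⟨a, ha⟩, ⟨y, 1, A.one_mem, y, hy, (one_mul y).symm⟩, hy, Subtype.ext rfl⟩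
    · intro x y hxy
      exact cay_le hES hxy
    · intro a x y hxy
      exact cay_mul (a : Γ) hxy
    · intro a x y hxy
      exact cay_mul (a : Γ) hxy
    · have : Nonempty W := ⟨⟨1, h1W⟩⟩
      exact SimpleGraph.Connected.mk fun x y => (hroot x).symm.trans (hroot y)
    · intro x
      exact (cay_lf hEf (x : Γ)).preimage Subtype.val_injective.injOn
    · intro F' hF' hFp
      have h2 : F'ᶜ ∈ p := hpc hF'.compl_mem_cofinite
      exact (Ultrafilter.compl_mem_iff_notMem.1 h2) hFp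
    · refine Filter.mem_of_superset hpN ?_
      intro s hs
      show (cay S).Adj 1 (s : Γ)
      refine cay_adj.2 ⟨?_, Or.inl ?_⟩
      · intro h; exact h1 (h ▸ hs.1)
      · rw [inv_one, one_mul]; exact hs.1
  · show (a : Γ) * 1 = a
    exact mul_one _

/-- **AP3.** If the conclusion of the induction holds for `A`, a finitely generated subgroup of an
arbitrary group `Γ`, and infinitely many elements of `S` are in one coset of `A`, then the Cayley graph
has a complete minor. -/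
theorem ap3 (hK : KndStmt.{u}) {Γ : Type u} [Group Γ] (A : Subgroup Γ) (hA : A.FG)
    (hCon : ∀ (W : Type u) [MulAction A W] (G G₀ : SimpleGraph W) (w : W) (p : Ultrafilter W),
      Stg A G G₀ w p → Con A G p)
    (S : Set Γ) (hS : Subgroup.closure S = ⊤) (h1 : (1 : Γ) ∉ S) (b : Γ)
    (hinf : {s | s ∈ S ∧ s * b⁻¹ ∈ A}.Infinite) :
    ∃ φ : ℕ → Set Γ,
      (∀ i, ((cay S).induce (φ i)).Connected) ∧
      (∀ i j, i ≠ j → Disjoint (φ i) (φ j)) ∧
      ∀ i j, i ≠ j → ∃ a ∈ φ i, ∃ b ∈ φ j, (cay S).Adj a b := by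
  obtain ⟨W, hact, w, G₀, p, hst, hw⟩ := settingC A hA S hS h1 b hinf
  obtain ⟨Z, hZ1, hZ2⟩ := hCon W ((cay S).induce W) G₀ w p hst
  have hinj : Function.Injective fun a : A => a • w := by
    intro a a' h
    have h2 : ((a • w : W) : Γ) = ((a' • w : W) : Γ) := congrArg Subtype.val h
    rw [hw, hw] at h2
    exact Subtype.ext h2
  obtain ⟨φ, hφ1, hφ2, hφ3⟩ := hK W ((cay S).induce W) ((fun a : A => a • w) '' Z)
    (hZ1.image hinj.injOn) (by
      rintro _ ⟨a, ha, rfl⟩ _ ⟨a', ha', rfl⟩ c hc ⟨hx, hy⟩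
      exact hZ2 a ha a' ha' c hc ⟨fact1 hst hc hx, fact1' hst hc hy⟩)
  refine ⟨fun i => Subtype.val '' φ i, ?_, ?_, ?_⟩
  · intro i
    let e : (((cay S).induce W).induce (φ i)) ≃g ((cay S).induce (Subtype.val '' φ i)) :=
      { toFun := fun x => ⟨((x : W) : Γ), ⟨x, x.2, rfl⟩⟩
        invFun := fun x => ⟨⟨(x : Γ), by obtain ⟨y, _, hy⟩ := x.2; rw [← hy]; exact y.2⟩, by
          obtain ⟨y, hy1, hy2⟩ := x.2
          have : (⟨(x : Γ), by rw [← hy2]; exact y.2⟩ : W) = y := Subtype.ext hy2.symm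
          rw [this]; exact hy1⟩
        left_inv := fun x => rfl
        right_inv := fun x => rfl
        map_rel_iff' := Iff.rfl }
    exact e.connected_iff.1 (hφ1 i)
  · intro i j hij
    exact (Set.disjoint_image_iff Subtype.val_injective).2 (hφ2 i j hij)
  · intro i j hij
    obtain ⟨a, ha, c, hc, hac⟩ := hφ3 i j hij
    exact ⟨a, ⟨a, ha, rfl⟩, c, ⟨c, hc, rfl⟩, hac⟩

end Pool.Agent.Helper69.AP3
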