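import Pool.Agent.Helper38.VF.Goals2

/-!
# Project VTF (MP_266b34_co), packets ACT and RTR: translations
-/

set_option autoImplicit false

namespace Pool.Agent.Helper69.VTF

open Pool.Agent.Helper38.VF

universe u

theorem mem_re {X : Type u} (σ : X ≃ X) (f : L2 X) :
    Memℓp (fun x => f (σ x)) (2 : ENNReal) := by
  have h2 : 0 < (2 : ENNReal).toReal := by norm_num
  have h := (memℓp_gen_iff h2).1 (lp.memℓp f)
  rw [memℓp_gen_iff h2]
  exact (σ.summable_iff (f := fun i => ‖f i‖ ^ (2 : ENNReal).toReal)).2 h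

/-- composition with a permutation -/
noncomputable def re {X : Type u} (σ : X ≃ X) (f : L2 X) : L2 X := ⟨fun x => f (σ x), mem_re σ f⟩

theorem re_apply {X : Type u} (σ : X ≃ X) (f : L2 X) (x : X) : re σ f x = f (σ x) := rfl

theorem norm_re {X : Type u} (σ : X ≃ X) (f : L2 X) : ‖re σ f‖ = ‖f‖ := by
  have h2 : 0 < (2 : ENNReal).toReal := by norm_num
  rw [lp.norm_eq_tsum_rpow h2, lp.norm_eq_tsum_rpow h2]
  have h := σ.tsum_eq (fun i => ‖f i‖ ^ (2 : ENNReal).toReal)
  have h' : (∑' i, ‖re σ f i‖ ^ (2 : ENNReal).toReal) = ∑' i, ‖f i‖ ^ (2 : ENNReal).toReal := h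
  rw [h']

/-- the isometry -/
noncomputable def rei {X : Type u} (σ : X ≃ X) : L2 X ≃ₗᵢ[ℝ] L2 X where
  toFun := re σ
  invFun := re σ.symm
  map_add' f g := by
    apply lp.ext; funext x; rfl
  map_smul' c f := by
    apply lp.ext; funext x; rfl
  left_inv f := by
    apply lp.ext; funext x; simp [re_apply]
  right_inv f := by
    apply lp.ext; funext x; simp [re_apply]
  norm_map' f := norm_re σ f

theorem rtr : RtrStmt.{u} := by
  intro A _ k h
  exact ⟨rei ((Equiv.refl (Fin k)).prodCongr (Equiv.mulRight h)), fun f z => rfl⟩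

theorem act : ActStmt.{u} := by
  intro A _
  refine ⟨{ smul := fun g f => re (Equiv.mulLeft g⁻¹) f
            one_smul := fun f => ?_
            mul_smul := fun g h f => ?_
            smul_zero := fun g => ?_
            smul_add := fun g f f' => ?_ }, ?_⟩
  rotate_left 4
  · intro g f a
    rfl
  all_goals
    apply lp.ext; funext x
  · first
      | (show f ((1 : A)⁻¹ * x) = f x
         simp)
      | (show f ((g * h)⁻¹ * x) = f (h⁻¹ * (g⁻¹ * x))
         rw [mul_inv_rev, mul_assoc])
      | rfl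
  · first
      | (show f ((1 : A)⁻¹ * x) = f x
         simp)
      | (show f ((g * h)⁻¹ * x) = f (h⁻¹ * (g⁻¹ * x))
         rw [mul_inv_rev, mul_assoc])
      | rfl
  · rfl
  · rfl

end Pool.Agent.Helper69.VTF
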