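import Pool.Agent.Helper38.VF.Goals2
import Pool.Agent.Helper69.VF.AP3

/-!
# The coset form for virtually torsion-free groups (MP_266b34_co, project VTF)
-/

set_option autoImplicit false

namespace Pool.Agent.Helper69.AP3

open Pool.Agent.Helper27.VF Pool.Agent.Helper38.VF Pool.Agent.Helper58.VF Filter

universe u

/-- The conclusion of the induction, for finitely generated torsion-free groups. -/
theorem con_of (hI : In2Stmt.{u}) (hR : Rk2Stmt.{u}) {A : Type u} [Group A] (hfg : Group.FG A)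
    (hTF : TF A) (W : Type u) [MulAction A W] (G G₀ : SimpleGraph W) (w : W) (p : Ultrafilter W)
    (hst : Stg A G G₀ w p) : Con A G p := by
  obtain ⟨T, hT⟩ := Group.fg_iff'.1 hfg
  obtain ⟨F, -, hF⟩ := hT
  by_contra hc
  have hD := hI (F.card + 1) A W G G₀ w p hst hTF hc
  let e : Fin F.card ≃ F := F.equivFin.symm
  have hcl : Subgroup.closure (Set.range fun i : Fin F.card => ((e i : F) : A)) = ⊤ := by
    have hr : (Set.range fun i : Fin F.card => ((e i : F) : A)) = (F : Set A) := by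
      ext x
      constructor
      · rintro ⟨i, rfl⟩
        exact (e i).2
      · intro hx
        exact ⟨e.symm ⟨x, hx⟩, by simp⟩
    rw [hr, hF]
  have := hR A F.card (F.card + 1) (fun i => ((e i : F) : A)) hcl hTF hD
  omega

/-- **AP3**, the statement for virtually torsion-free subgroups. -/
def Ap3Stmt : Prop := ∀ (Γ : Type u) [Group Γ] (S : Set Γ), Subgroup.closure S = ⊤ →
  (∀ s ∈ S, s⁻¹ ∈ S) → (1 : Γ) ∉ S → ∀ (D : Subgroup Γ), Group.FG D →
  (∃ A : Subgroup D, A.FiniteIndex ∧ ∀ a ∈ A, ∀ n : ℕ, 0 < n → a ^ n = 1 → a = 1) → ∀ b : Γ,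
  {s | s ∈ S ∧ s * b⁻¹ ∈ D}.Infinite →
  ∃ φ : ℕ → Set Γ,
    (∀ i, ((SimpleGraph.fromRel fun a b : Γ => a⁻¹ * b ∈ S).induce (φ i)).Connected) ∧
    (∀ i j, i ≠ j → Disjoint (φ i) (φ j)) ∧
    ∀ i j, i ≠ j → ∃ a ∈ φ i, ∃ b ∈ φ j,
      (SimpleGraph.fromRel fun a b : Γ => a⁻¹ * b ∈ S).Adj a b

theorem ap3v (hI : In2Stmt.{u}) (hR : Rk2Stmt.{u}) (hK : KndStmt.{u}) : Ap3Stmt.{u} := by
  intro Γ _ S hS _ h1 D hD hA b hinf
  obtain ⟨A, hAf, htf⟩ := hA
  have := hAf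
  have := hD
  have hAG : Group.FG A := Subgroup.fg_of_index_ne_zero A
  have hAG' : (A.map D.subtype).FG := by
    rw [← Group.fg_iff_subgroup_fg]
    exact Group.fg_of_surjective (f := (D.subtype.subgroupMap A)) (D.subtype.subgroupMap_surjective A)
  have hTF : TF (A.map D.subtype) := by
    rintro ⟨a, ha⟩ n hn h
    obtain ⟨d, hd, rfl⟩ := id ha
    have h2 : (d : Γ) ^ n = 1 := congrArg Subtype.val h
    have h3 : d ^ n = 1 := Subtype.ext h2
    have h4 := htf d hd n hn h3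
    apply Subtype.ext
    show (d : Γ) = 1
    rw [h4]; rfl
  have : Finite (D ⧸ A) := Subgroup.finite_quotient_of_finiteIndex
  -- a coset of `A`
  obtain ⟨b', hb'⟩ : ∃ b' : Γ, {s | s ∈ S ∧ s * b'⁻¹ ∈ A.map D.subtype}.Infinite := by
    by_contra hcon
    push Not at hcon
    apply hinf
    have h2 : (⋃ q : D ⧸ A, {s | s ∈ S ∧ s * (((Quotient.out q : D) : Γ)⁻¹ * b)⁻¹ ∈
        A.map D.subtype}).Finite :=
      Set.finite_iUnion fun q => hcon _
    refine h2.subset ?_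
    rintro s ⟨hs1, hs2⟩
    set d : D := ⟨s * b⁻¹, hs2⟩ with hd
    refine Set.mem_iUnion.2 ⟨(QuotientGroup.mk d⁻¹ : D ⧸ A), hs1, ?_⟩
    have hq : (QuotientGroup.mk (Quotient.out (QuotientGroup.mk d⁻¹ : D ⧸ A)) : D ⧸ A) =
        QuotientGroup.mk d⁻¹ := QuotientGroup.out_eq' _
    have hm := A.inv_mem (QuotientGroup.eq.1 hq)
    set r : D := Quotient.out (QuotientGroup.mk d⁻¹ : D ⧸ A) with hr
    refine ⟨(r⁻¹ * d⁻¹)⁻¹, hm, ?_⟩
    have h5 : (d : Γ) = s * b⁻¹ := rfl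
    show (((r⁻¹ * d⁻¹)⁻¹ : D) : Γ) = s * (((r : D) : Γ)⁻¹ * b)⁻¹
    push_cast
    rw [h5]
    group
  exact ap3 hK (A.map D.subtype) hAG'
    (fun W _ G G₀ w p hst => con_of hI hR ((Group.fg_iff_subgroup_fg _).2 hAG') hTF W G G₀ w p hst)
    S hS h1 b' hb'

end Pool.Agent.Helper69.AP3
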