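import Pool.Agent.Helper69.VFX.Hall
import Pool.Agent.Helper67.VF.RF

/-!
# Project RF (MP_266b34_co): free groups are residually finite
-/

set_option autoImplicit false

namespace Pool.Agent.Helper69.RF

universe u

theorem rff : Pool.Agent.Helper67.RF.RffStmt.{u} := by
  intro A _ _ a ha
  have e : A ≃* FreeGroup (IsFreeGroup.Generators A) := IsFreeGroup.toFreeGroup A
  obtain ⟨L, _, h2, h3⟩ := Pool.Agent.Helper69.VFX.hall
    (⊥ : Subgroup (FreeGroup (IsFreeGroup.Generators A))) ⟨∅, by simp⟩ (e a)
    (by rw [Subgroup.mem_bot]; intro h; exact ha (by simpa using h))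
  have h4 : L.normalCore.FiniteIndex := inferInstance
  refine ⟨L.normalCore.comap e.toMonoidHom, inferInstance, ⟨?_⟩, ?_⟩
  · rw [Subgroup.index_comap_of_surjective _ e.surjective]
    exact h4.index_ne_zero
  · intro h
    rw [Subgroup.mem_comap] at h
    exact h2 (L.normalCore_le h)

end Pool.Agent.Helper69.RF
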