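import Pool.Agent.Helper38.VF.Goals2

/-!
# Project VTF (MP_266b34_co), packet TR1: the trace property
-/

set_option autoImplicit false

namespace Pool.Agent.Helper69.VTF

open Pool.Agent.Helper38.VF

universe u

/-- the unit vectors -/
noncomputable def dd {X : Type u} (z : X) : L2 X := by
  classical
  exact lp.single 2 z (1 : ℝ)

open Classical in
theorem dd_apply {X : Type u} (z x : X) : dd z x = if x = z then 1 else 0 := by
  unfold dd
  rw [lp.single_apply, Pi.single_apply]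

theorem dd_eq {X : Type u} [DecidableEq X] (z : X) : (lp.single 2 z (1 : ℝ) : L2 X) = dd z := by
  apply lp.ext
  funext x
  rw [dd_apply, lp.single_apply, Pi.single_apply]
  by_cases h : x = z
  · rw [if_pos h, if_pos h]
  · rw [if_neg h, if_neg h]

theorem inner_dd {X : Type u} (f : L2 X) (z : X) : inner ℝ f (dd z) = f z := by
  classical
  unfold dd
  have h := lp.inner_single_right (𝕜 := ℝ) z (1 : ℝ) f
  refine (Eq.trans ?_ h).trans ?_
  · rfl
  · simp

theorem coord {X Y : Type u} (P : L2 X →L[ℝ] L2 Y) (f : L2 X) (y : Y) :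
    HasSum (fun x => f x * P (dd x) y) (P f y) := by
  have h := lp.hasSum_inner (𝕜 := ℝ) f (P.adjoint (dd y))
  rw [ContinuousLinearMap.adjoint_inner_right, inner_dd] at h
  have h1 : ∀ x, (P.adjoint (dd y)) x = P (dd x) y := by
    intro x
    rw [← inner_dd (P.adjoint (dd y)) x, ContinuousLinearMap.adjoint_inner_left,
      real_inner_comm, inner_dd]
  have h2 : (fun x => inner ℝ (f x) ((P.adjoint (dd y)) x)) = fun x => f x * P (dd x) y := by
    funext x
    rw [h1]
    simp [mul_comm]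
  rw [h2] at h
  exact h

theorem ker {A : Type u} [Group A] {m n : ℕ} (P : L2 (Fin m × A) →L[ℝ] L2 (Fin n × A)) (hP : Eqv P)
    (i : Fin m) (g : A) (j : Fin n) (a : A) :
    P (dd (i, g)) (j, a) = P (dd (i, 1)) (j, a * g⁻¹) := by
  classical
  refine hP g⁻¹ (dd (i, 1)) (dd (i, g)) ?_ (j, a)
  rintro ⟨i', b⟩
  rw [dd_apply, dd_apply]
  have h : ((i', b) = (i, g)) ↔ ((i', b * g⁻¹) = (i, (1 : A))) := by
    simp only [Prod.mk.injEq, mul_inv_eq_one]
  by_cases h' : (i', b) = (i, g)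
  · rw [if_pos h', if_pos (h.1 h')]
  · rw [if_neg h', if_neg fun h'' => h' (h.2 h'')]

theorem tr_eq {A : Type u} [Group A] {n : ℕ} (Q : L2 (Fin n × A) →L[ℝ] L2 (Fin n × A)) :
    tr' Q = ∑ j : Fin n, (Q (dd (j, (1 : A)))) (j, 1) := by
  classical
  unfold tr'
  refine Finset.sum_congr rfl fun j _ => ?_
  rw [dd_eq]

theorem tr_comp {A : Type u} [Group A] (m n : ℕ)
    (P : L2 (Fin m × A) →L[ℝ] L2 (Fin n × A)) (Q : L2 (Fin n × A) →L[ℝ] L2 (Fin m × A))
    (hP : Eqv P) : tr' (P.comp Q) = ∑ j : Fin n, ∑ i : Fin m, ∑' g : A,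
      Q (dd (j, 1)) (i, g) * P (dd (i, 1)) (j, g⁻¹) := by
  rw [tr_eq]
  refine Finset.sum_congr rfl fun j _ => ?_
  have h := coord P (Q (dd (j, 1))) (j, 1)
  have h1 : (P.comp Q) (dd (j, (1 : A))) (j, 1) = ∑' x : Fin m × A,
      Q (dd (j, 1)) x * P (dd x) (j, 1) := h.tsum_eq.symm
  rw [h1, h.summable.tsum_prod, tsum_fintype]
  refine Finset.sum_congr rfl fun i _ => ?_
  refine tsum_congr fun g => ?_
  rw [ker P hP i g j 1, one_mul]

theorem tr1 : Tr1Stmt.{u} := by
  intro A _ m n P Q hP hQ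
  rw [tr_comp m n P Q hP, tr_comp n m Q P hQ, Finset.sum_comm]
  refine Finset.sum_congr rfl fun i _ => ?_
  refine Finset.sum_congr rfl fun j _ => ?_
  rw [← (Equiv.inv A).tsum_eq]
  refine tsum_congr fun g => ?_
  simp only [Equiv.inv_apply, inv_inv]
  rw [mul_comm]

end Pool.Agent.Helper69.VTF
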